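import Pool.Agent.W5h68.Phylo.Pair42

/-!
# Common partition counts of two trees need not be unimodal

`T` and `F` are caterpillars with `42` leaves. The leaf order of `F` is `0, 1, ..., 41`, the leaf
order of `T` is `40, 38, ..., 16, 0, 1, ..., 15, 17, 19, ..., 41`. The numbers of common
partitions with `24`, `25`, `26` classes are `969565439051 > 960050631494 < 970581162494`.
-/

set_option autoImplicit false

namespace Pool.Agent.Results.MP_afdbb1_co.NotUnimodal

open Pool.Agent.R935.Phylo Pool.Agent.W5h68.Phylo

/-- For some pair of trees with `n` leaves the sequence `a_1, ..., a_n` of common partition counts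
is not unimodal. -/
theorem result : ∃ (n : ℕ) (T F : PhyloTree n), ¬ ∃ m : ℕ, 1 ≤ m ∧ m ≤ n ∧
    (∀ k, 1 ≤ k → k < m → common T F k ≤ common T F (k + 1)) ∧
    (∀ k, m ≤ k → k < n → common T F (k + 1) ≤ common T F k) := by
  refine ⟨42, T42, F42, ?_⟩
  rintro ⟨m, -, -, h1, h2⟩
  rcases Nat.lt_or_ge 24 m with hm | hm
  · have := h1 24 (by norm_num) hm
    rw [v24, v25] at this
    norm_num at this
  · have := h2 25 (by omega) (by norm_num)
    rw [v25, v26] at this
    norm_num at this

end Pool.Agent.Results.MP_afdbb1_co.NotUnimodal
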